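import Pool.Agent.R658.LQ.Main
import Pool.Agent.R658.LQ.TST
import Pool.Agent.R658.LQ.TDB
import Pool.Agent.R658.LQ.TLL
import Pool.Agent.R658.LQ.TCH

/-! # MP_27feec_al: quotients of complete locally minimal abelian groups by compact subgroups

Q1 (hence Q2) has a positive answer. -/

set_option autoImplicit false

namespace Pool.Agent.Results.MP_27feec_al.QuotientLocallyMinimal

open Topology

/-- Let `G` be a complete Hausdorff abelian topological group and `K` a compact subgroup of `G`.  If `G` is
locally minimal, then `G / K` (with the quotient topology) is locally minimal. -/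
theorem result (G : Type) [AddCommGroup G] [UniformSpace G] [IsUniformAddGroup G] [T2Space G]
    [CompleteSpace G]
    (hG : ∃ V ∈ 𝓝 (0 : G), ∀ σ : TopologicalSpace G, @IsTopologicalAddGroup G σ _ →
      @T2Space G σ → (UniformSpace.toTopologicalSpace : TopologicalSpace G) ≤ σ →
      V ∈ @nhds G σ 0 → σ = (UniformSpace.toTopologicalSpace : TopologicalSpace G))
    (K : AddSubgroup G) (hK : IsCompact (K : Set G)) :
    ∃ V ∈ 𝓝 (0 : G ⧸ K), ∀ σ : TopologicalSpace (G ⧸ K), @IsTopologicalAddGroup (G ⧸ K) σ _ →
      @T2Space (G ⧸ K) σ → (QuotientAddGroup.instTopologicalSpace K : TopologicalSpace (G ⧸ K)) ≤ σ →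
      V ∈ @nhds (G ⧸ K) σ 0 →
      σ = (QuotientAddGroup.instTopologicalSpace K : TopologicalSpace (G ⧸ K)) :=
  R658.LQ.quotient_locallyMinimal (R658.LQ.taskLL R658.LQ.taskST R658.LQ.taskDB) R658.LQ.taskCH
    G hG K hK

end Pool.Agent.Results.MP_27feec_al.QuotientLocallyMinimal
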